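import Mathlib

set_option autoImplicit false
open Finset SimpleGraph

namespace Pool.Agent.Results.MP_924496_co.NotSharp

/-- `H` is an `m`-fold cover of `G`, with lists `L v = {v} × Fin m`. -/
def IsCover {V : Type} {m : ℕ} (G : SimpleGraph V) (H : SimpleGraph (V × Fin m)) : Prop :=
  (∀ v i j, i ≠ j → H.Adj (v, i) (v, j)) ∧
  (∀ u v i j j', u ≠ v → H.Adj (u, i) (v, j) → H.Adj (u, i) (v, j') → j = j') ∧
  ∀ u v i j, u ≠ v → H.Adj (u, i) (v, j) → G.Adj u v

/-- Colourings: independent sets of `H` of size `|V|`. -/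
def Cols {V : Type} {m : ℕ} (H : SimpleGraph (V × Fin m)) : Set (Finset (V × Fin m)) :=
  {I | H.IsIndepSet I ∧ #I = Nat.card V}

/-- The DP-chromatic number. -/
noncomputable def chi {V : Type} (G : SimpleGraph V) : ℕ :=
  sInf {m | ∀ H : SimpleGraph (V × Fin m), IsCover G H → (Cols H).Nonempty}

/-- The DP colour function. -/
noncomputable def P {V : Type} (G : SimpleGraph V) (m : ℕ) : ℕ :=
  sInf {n | ∃ H : SimpleGraph (V × Fin m), IsCover G H ∧ (Cols H).ncard = n}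

/-- The least `t` with `chi (G □ K_{k,t}) = chi G + k`. -/
noncomputable def f {V : Type} (G : SimpleGraph V) (k : ℕ) : ℕ :=
  sInf {t | chi (G □ completeBipartiteGraph (Fin k) (Fin t)) = chi G + k}

variable {V W : Type} [Fintype V] [DecidableEq V] {m : ℕ}

def Pr (H : SimpleGraph (V × Fin m)) (c : V → Fin m) : Prop := ∀ u v, ¬ H.Adj (u, c u) (v, c v)

def Col (G : SimpleGraph V) (m : ℕ) : Prop :=
  ∀ H : SimpleGraph (V × Fin m), IsCover G H → ∃ c, Pr H c

theorem toS {H : SimpleGraph (V × Fin m)} {c : V → Fin m} (h : Pr H c) :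
    (univ.image fun v => (v, c v)) ∈ Cols H := by
  refine ⟨fun x hx y hy _ => ?_, ?_⟩
  · obtain ⟨u, -, rfl⟩ := mem_image.mp (mem_coe.mp hx)
    obtain ⟨v, -, rfl⟩ := mem_image.mp (mem_coe.mp hy)
    exact h u v
  · rw [card_image_of_injective _ fun a b e => congrArg Prod.fst e]; simp

theorem ofS {G : SimpleGraph V} {H : SimpleGraph (V × Fin m)} (hc : IsCover G H)
    (h : (Cols H).Nonempty) : ∃ c, Pr H c := by
  obtain ⟨I, h1, h2⟩ := h
  have inj : Set.InjOn Prod.fst (I : Set (V × Fin m)) := by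
    rintro ⟨u, i⟩ a ⟨v, j⟩ b (rfl : u = v)
    by_contra n
    exact h1 a b n (hc.1 u i j fun e => n (by rw [e]))
  have : I.image Prod.fst = univ := by
    rw [← card_eq_iff_eq_univ, card_image_of_injOn inj, h2, Nat.card_eq_fintype_card]
  have : ∀ v, ∃ i, (v, i) ∈ I := fun v => by
    obtain ⟨⟨u, i⟩, a, rfl⟩ := mem_image.mp (this ▸ mem_univ v)
    exact ⟨i, a⟩
  choose c hc using this
  exact ⟨c, fun u v a => h1 (hc u) (hc v) a.ne a⟩

theorem chi_eq (G : SimpleGraph V) : chi G = sInf {m | Col G m} := by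
  unfold chi; congr 1; ext m
  exact ⟨fun h H c => ofS c (h H c), fun h H c => (h H c).elim fun _ a => ⟨_, toS a⟩⟩

theorem greedy (G : SimpleGraph V) : Col G (Fintype.card V + 1) := by
  classical
  intro H hc
  have : ∀ S : Finset V, ∃ c : V → Fin (Fintype.card V + 1),
      ∀ u ∈ S, ∀ v ∈ S, ¬ H.Adj (u, c u) (v, c v) := by
    intro S
    induction S using Finset.induction_on with
    | empty => exact ⟨fun _ => 0, by simp⟩
    | insert x S hx ih =>
      obtain ⟨c, h⟩ := ih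
      have : #(S.biUnion fun u => univ.filter fun j => H.Adj (u, c u) (x, j)) <
          #(univ : Finset (Fin (Fintype.card V + 1))) := by
        refine (card_biUnion_le_card_mul S (fun u => univ.filter fun j => H.Adj (u, c u) (x, j)) 1 fun u hu => card_le_one.mpr fun a ha b hb =>
          hc.2.1 u x _ _ _ (by rintro rfl; exact hx hu) (mem_filter.mp ha).2 (mem_filter.mp hb).2).trans_lt ?_
        have := card_le_univ S
        simp; omega
      obtain ⟨j, -, hj⟩ := exists_mem_notMem_of_card_lt_card this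
      simp only [mem_biUnion, mem_filter, mem_univ, true_and, not_exists, not_and] at hj
      have e : ∀ u ∈ S, Function.update c x j u = c u := fun u hu =>
        Function.update_of_ne (by rintro rfl; exact hx hu) _ _
      refine ⟨Function.update c x j, fun u hu v hv => ?_⟩
      rcases mem_insert.mp hu with rfl | hu' <;> rcases mem_insert.mp hv with rfl | hv'
      · exact H.irrefl
      · rw [e v hv', Function.update_self]; exact fun a => hj v hv' a.symm
      · rw [e u hu', Function.update_self]; exact hj u hu'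
      · rw [e u hu', e v hv']; exact h u hu' v hv'
  obtain ⟨c, h⟩ := this univ
  exact ⟨c, fun u v => h u (mem_univ _) v (mem_univ _)⟩

theorem restrict {G : SimpleGraph V} {q : ℕ} (h : Col G q) {G' : SimpleGraph W}
    {H : SimpleGraph (W × Fin m)} (hc : IsCover G' H) (φ : V → W) (i : Function.Injective φ)
    (a : ∀ u v, G'.Adj (φ u) (φ v) → G.Adj u v) (L : V → Finset (Fin m)) (hL : ∀ v, q ≤ #(L v)) :
    ∃ c : V → Fin m, (∀ v, c v ∈ L v) ∧ ∀ u v, ¬ H.Adj (φ u, c u) (φ v, c v) := by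
  have : ∀ v, ∃ e : Fin q → Fin m, Function.Injective e ∧ ∀ j, e j ∈ L v := fun v =>
    ⟨(L v).orderEmbOfCardLe (hL v), ((L v).orderEmbOfCardLe (hL v)).injective, fun j => orderEmbOfCardLe_mem _ _ _⟩
  choose e e1 e2 using this
  obtain ⟨c, hc⟩ := h (H.comap fun x : V × Fin q => (φ x.1, e x.1 x.2))
    ⟨fun v i j n => hc.1 _ _ _ ((e1 v).ne n),
      fun u v _ j j' n a b => e1 v (hc.2.1 _ _ _ _ _ (i.ne n) a b),
      fun u v _ _ n b => a _ _ (hc.2.2 _ _ _ _ (i.ne n) b)⟩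
  exact ⟨fun v => e v (c v), fun v => e2 _ _, hc⟩

theorem upper {G : SimpleGraph V} {q : ℕ} (h : Col G q) (t : ℕ) :
    Col (G □ completeBipartiteGraph (Fin 2) (Fin t)) (q + 2) := by
  classical
  intro H hc
  have R := fun (z : Fin 2 ⊕ Fin t) => restrict h hc (fun v => (v, z))
    (fun a b e => congrArg Prod.fst e) (fun u v a => by simpa using a)
  choose A _ hA using fun a => R (.inl a) (fun _ => univ) fun _ => by simp
  choose B B1 B2 using fun b => R (.inr b) (fun v => (univ.biUnion fun a : Fin 2 =>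
    univ.filter fun j => H.Adj ((v, .inl a), A a v) ((v, .inr b), j))ᶜ) fun v => by
      have := card_biUnion_le_card_mul univ (fun a : Fin 2 =>
        univ.filter fun j => H.Adj ((v, .inl a), A a v) ((v, .inr b), j)) 1
        fun a _ => card_le_one.mpr fun x hx y hy =>
          hc.2.1 _ _ _ _ _ (by simp) (mem_filter.mp hx).2 (mem_filter.mp hy).2
      rw [card_compl]
      simp only [card_univ, Fintype.card_fin] at this ⊢
      omega
  simp only [mem_compl, mem_biUnion, mem_filter, mem_univ, true_and, not_exists] at B1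
  refine ⟨fun x => x.2.elim (fun a => A a x.1) fun b => B b x.1, ?_⟩
  rintro ⟨u, y⟩ ⟨v, z⟩ a
  by_cases e : y = z
  · subst e
    rcases y with y | y
    exacts [hA y u v a, B2 y u v a]
  have := hc.2.2 _ _ _ _ (by simp [e]) a
  simp only [boxProd_adj, e, and_false, false_or] at this
  obtain ⟨b, rfl⟩ := this
  rcases y with y | y <;> rcases z with z | z <;> simp at b
  exacts [B1 _ _ _ a, B1 _ _ _ a.symm]

theorem lower {G : SimpleGraph V} {q t : ℕ} (h0 : ¬ Col G q) {H : SimpleGraph (V × Fin (q + 2))}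
    (hc : IsCover G H) (c0 c1 : {c // Pr H c}) (n : ∀ v, c0.1 v ≠ c1.1 v)
    (T : Fin t ≃ {x : Fin 2 → {c // Pr H c} // x ≠ fun _ => c1}) (ne : c0 ≠ c1) :
    ¬ Col (G □ completeBipartiteGraph (Fin 2) (Fin t)) (q + 2) := by
  classical
  intro h
  obtain ⟨H0, h1, h2⟩ : ∃ H0 : SimpleGraph (V × Fin q), IsCover G H0 ∧ ∀ c, ¬ Pr H0 c := by
    simpa [Col] using h0
  let M : Fin t → Fin 2 → V → Fin (q + 2) → Fin (q + 2) → Prop := fun b a v i j =>
    (i = ((T b).1 a).1 v ∧ j = Fin.natAdd q a) ∨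
      ((T b).1 = (fun _ => c0) ∧ i = c1.1 v ∧ j = Fin.natAdd q a.rev)
  have rv : ∀ a : Fin 2, a ≠ a.rev := by decide
  have M1 : ∀ b a v i j j', M b a v i j → M b a v i j' → j = j' := by
    rintro b a v i j j' (⟨x, rfl⟩ | ⟨x, y, rfl⟩) (⟨z, rfl⟩ | ⟨z, w, rfl⟩) <;> try rfl
    · rw [z, w] at x; exact absurd x.symm (n v)
    · rw [x, y] at z; exact absurd z.symm (n v)
  have M2 : ∀ b a v i i' j, M b a v i j → M b a v i' j → i = i' := by
    rintro b a v i i' j (⟨rfl, x⟩ | ⟨x, rfl, y⟩) (⟨rfl, z⟩ | ⟨z, rfl, w⟩) <;> try rfl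
    · exact absurd (Fin.natAdd_injective _ _ (x.symm.trans w)) (rv a)
    · exact absurd (Fin.natAdd_injective _ _ (z.symm.trans y)) (rv a)
  let r : (V × (Fin 2 ⊕ Fin t)) × Fin (q + 2) → (V × (Fin 2 ⊕ Fin t)) × Fin (q + 2) → Prop
    | ((u, .inl a), i), ((v, .inl a'), j) => a = a' ∧ H.Adj (u, i) (v, j)
    | ((u, .inr b), i), ((v, .inr b'), j) => b = b' ∧ ((u = v ∧ i ≠ j) ∨
        ∃ i0 j0, i = Fin.castAdd 2 i0 ∧ j = Fin.castAdd 2 j0 ∧ H0.Adj (u, i0) (v, j0))
    | ((u, .inl a), i), ((v, .inr b), j) => u = v ∧ M b a u i j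
    | ((u, .inr b), j), ((v, .inl a), i) => u = v ∧ M b a u i j
  let K : SimpleGraph ((V × (Fin 2 ⊕ Fin t)) × Fin (q + 2)) := ⟨r, ⟨by
    rintro ⟨⟨u, a | a⟩, i⟩ ⟨⟨v, b | b⟩, j⟩ ⟨x, y⟩
    · exact ⟨x.symm, y.symm⟩
    · exact ⟨x.symm, x ▸ y⟩
    · exact ⟨x.symm, x ▸ y⟩
    · exact ⟨x.symm, y.imp (fun z => ⟨z.1.symm, z.2.symm⟩)
        fun ⟨i0, j0, a, b, c⟩ => ⟨j0, i0, b, a, c.symm⟩⟩⟩, ⟨by
    rintro ⟨⟨u, a | a⟩, i⟩ ⟨-, y⟩
    · exact H.irrefl y
    · rcases y with y | ⟨i0, j0, rfl, e, y⟩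
      · exact y.2 rfl
      · rw [Fin.castAdd_injective _ _ e] at y; exact H0.irrefl y⟩⟩
  obtain ⟨c, hK⟩ := h K ⟨by
    rintro ⟨u, a | a⟩ i j e
    exacts [⟨rfl, hc.1 _ _ _ e⟩, ⟨rfl, Or.inl ⟨rfl, e⟩⟩], by
    rintro ⟨u, a | a⟩ ⟨v, b | b⟩ i j j' e ⟨rfl, x⟩ ⟨-, y⟩
    · exact hc.2.1 _ _ _ _ _ (by simpa using e) x y
    · exact M1 _ _ _ _ _ _ x y
    · exact M2 _ _ _ _ _ _ x y
    · have e : u ≠ v := by simpa using e
      obtain ⟨i0, j0, rfl, rfl, x'⟩ := x.resolve_left fun z => e z.1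
      obtain ⟨i1, j1, z, rfl, y'⟩ := y.resolve_left fun z => e z.1
      rw [← Fin.castAdd_injective _ _ z] at y'
      rw [h1.2.1 _ _ _ _ _ e x' y'], by
    rintro ⟨u, a | a⟩ ⟨v, b | b⟩ i j e ⟨rfl, x⟩
    · exact Or.inl ⟨hc.2.2 _ _ _ _ (by simpa using e) x, rfl⟩
    · exact Or.inr ⟨by simp, rfl⟩
    · exact Or.inr ⟨by simp, rfl⟩
    · have e : u ≠ v := by simpa using e
      obtain ⟨i0, j0, rfl, rfl, x'⟩ := x.resolve_left fun z => e z.1
      exact Or.inl ⟨h1.2.2 _ _ _ _ e x', rfl⟩⟩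
  let x : Fin 2 → {c // Pr H c} := fun a => ⟨fun v => c (v, .inl a), fun u v e => hK (u, .inl a) (v, .inl a) ⟨rfl, e⟩⟩
  obtain ⟨b, hb⟩ : ∃ b, ∀ v a, c (v, .inr b) ≠ Fin.natAdd q a := by
    by_cases e : x = fun _ => c1
    · refine ⟨T.symm ⟨fun _ => c0, fun z => ne (congrFun z 0)⟩, fun v a z =>
        hK (v, .inl a.rev) (v, .inr _) ⟨rfl, Or.inr ⟨congrArg Subtype.val (T.apply_symm_apply _), ?_, by rw [Fin.rev_rev]; exact z⟩⟩⟩
      exact congrFun (congrArg Subtype.val (congrFun e a.rev)) v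
    · exact ⟨T.symm ⟨x, e⟩, fun v a z => hK (v, .inl a) (v, .inr _) ⟨rfl, Or.inl ⟨by simp [x], z⟩⟩⟩
  have : ∀ v, ∃ i, c (v, .inr b) = Fin.castAdd 2 i := fun v => by
    have := hb v
    generalize c (v, .inr b) = z at this
    induction z using Fin.addCases with
    | left i => exact ⟨i, rfl⟩
    | right a => exact absurd rfl (this a)
  choose d hd using this
  exact h2 d fun u v e => hK (u, .inr b) (v, .inr b) ⟨rfl, Or.inr ⟨_, _, hd u, hd v, e⟩⟩

theorem result : ¬ ∃ (V : Type) (_ : Fintype V) (_ : Nonempty V) (G : SimpleGraph V),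
    ∀ k ≥ 1, f G k = P G (chi G + k - 1) ^ k := by
  classical
  rintro ⟨V, _, _, G, h⟩
  have h := h 2 (by norm_num)
  have c1 : Col G (chi G) := by
    rw [chi_eq]; exact Nat.sInf_mem (s := {m | Col G m}) ⟨_, greedy G⟩
  have triv : ∀ m, IsCover G (⟨fun x y : V × Fin m => x.1 = y.1 ∧ x.2 ≠ y.2,
      ⟨fun _ _ a => ⟨a.1.symm, a.2.symm⟩⟩, ⟨fun _ a => a.2 rfl⟩⟩ : SimpleGraph (V × Fin m)) :=
    fun m => ⟨fun _ _ _ e => ⟨rfl, e⟩, fun _ _ _ _ _ e a => absurd a.1 e, fun _ _ _ _ e a => absurd a.1 e⟩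
  obtain ⟨q, hq⟩ : ∃ q, chi G = q + 1 := by
    refine Nat.exists_eq_succ_of_ne_zero fun e => ?_
    rw [e] at c1
    obtain ⟨c, -⟩ := c1 _ (triv 0)
    exact (c (Classical.arbitrary V)).elim0
  have c0 : ¬ Col G q := Nat.notMem_of_lt_sInf (s := {m | Col G m}) (by rw [← chi_eq]; omega)
  rw [hq] at c1 h
  obtain ⟨H, hc, hP⟩ := Nat.sInf_mem (s := {n | ∃ H : SimpleGraph (V × Fin (q + 2)),
    IsCover G H ∧ (Cols H).ncard = n}) ⟨_, _, triv _, rfl⟩
  obtain ⟨a, -, ha⟩ := restrict c1 hc id Function.injective_id (fun _ _ a => a) (fun _ => univ)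
    fun _ => by simp
  obtain ⟨b, n, hb⟩ := restrict c1 hc id Function.injective_id (fun _ _ a => a) (fun v => {a v}ᶜ)
    fun _ => by simp [card_compl]
  have n : ∀ v, a v ≠ b v := fun v => by simpa [eq_comm] using n v
  let C := {c // Pr H c}
  let X := {x : Fin 2 → C // x ≠ fun _ => ⟨b, hb⟩}
  have l := lower c0 hc ⟨a, ha⟩ ⟨b, hb⟩ n (Fintype.equivFin X).symm
    fun e => n (Classical.arbitrary V) (congrFun (congrArg Subtype.val e) _)
  have u := upper c1 (Fintype.card X)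
  have e : chi (G □ completeBipartiteGraph (Fin 2) (Fin (Fintype.card X))) = chi G + 2 := by
    rw [chi_eq, hq]
    refine le_antisymm (Nat.sInf_le u) (le_csInf ⟨_, u⟩ fun m hm => ?_)
    by_contra lt
    refine l fun K hK => ?_
    obtain ⟨c, -, hc⟩ := restrict hm hK id Function.injective_id (fun _ _ a => a) (fun _ => univ)
      fun _ => by simp; omega
    exact ⟨c, hc⟩
  have k1 : f G 2 ≤ Fintype.card X := Nat.sInf_le e
  have k2 : Fintype.card X < Fintype.card C ^ 2 := by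
    have := Fintype.card_subtype_lt (p := fun x : Fin 2 → C => x ≠ fun _ => ⟨b, hb⟩)
      (x := fun _ => ⟨b, hb⟩) (by simp)
    rwa [Fintype.card_fun, Fintype.card_fin] at this
  have k3 : Fintype.card C ≤ (Cols H).ncard := by
    rw [← Nat.card_eq_fintype_card, ← Nat.card_coe_set_eq]
    refine Nat.card_le_card_of_injective (fun c : C => (⟨_, toS c.2⟩ : Cols H)) fun c d e => ?_
    refine Subtype.ext (funext fun v => ?_)
    have e' : (univ.image fun v => (v, c.1 v)) = univ.image fun v => (v, d.1 v) := congrArg Subtype.val e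
    have : (v, c.1 v) ∈ univ.image fun v => (v, d.1 v) := e' ▸ mem_image.mpr ⟨v, mem_univ _, rfl⟩
    obtain ⟨w, -, z⟩ := mem_image.mp this
    obtain ⟨rfl, z⟩ := Prod.ext_iff.mp z
    exact z.symm
  have := Nat.pow_le_pow_left k3 2
  rw [hP] at this
  exact absurd h (k1.trans_lt (k2.trans_le this)).ne

end Pool.Agent.Results.MP_924496_co.NotSharp
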